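import Pool.Agent.Gab7c_h87.Ax

/-! Certificate; see `Pool/Agent/Gab7c_h87/Ax.lean`. -/

set_option autoImplicit false
set_option maxRecDepth 100000

namespace Pool.Agent.Gab7c_h87.CBq

open Pool.Agent.Gab7c_h87.Sat

/-- the variables -/
def v : Tr VC := (.node (.node (.node (.node (.node (.node (.node (.node (.node (.node (.node (.leaf ⟨0, 127, 0, 0⟩)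
(.leaf ⟨1, 80, 68, 0⟩))
(.leaf ⟨0, 10803, 0, 0⟩))
(.node (.node (.leaf ⟨0, 4383, 0, 0⟩)
(.leaf ⟨2, 9337, 0, 0⟩))
(.leaf ⟨0, 15493, 0, 0⟩)))
(.node (.node (.node (.leaf ⟨0, 1784, 0, 0⟩)
(.leaf ⟨2, 1001, 0, 0⟩))
(.leaf ⟨0, 13594, 0, 0⟩))
(.node (.leaf ⟨0, 8311, 0, 0⟩)
(.leaf ⟨1, 9, 9, 0⟩))))
(.node (.node (.node (.node (.leaf ⟨0, 1135, 0, 0⟩)
(.leaf ⟨1, 67, 19, 0⟩))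
(.leaf ⟨0, 12567, 0, 0⟩))
(.node (.node (.leaf ⟨0, 6096, 0, 0⟩)
(.leaf ⟨2, 14145, 0, 0⟩))
(.leaf ⟨1, 16, 2, 0⟩)))
(.node (.node (.node (.leaf ⟨0, 2794, 0, 0⟩)
(.leaf ⟨2, 5241, 0, 0⟩))
(.leaf ⟨0, 14387, 0, 0⟩))
(.node (.leaf ⟨0, 9337, 0, 0⟩)
(.leaf ⟨1, 33, 9, 0⟩)))))
(.node (.node (.node (.node (.node (.leaf ⟨0, 734, 0, 0⟩)
(.leaf ⟨1, 13, 13, 0⟩))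
(.leaf ⟨0, 11937, 0, 0⟩))
(.node (.node (.leaf ⟨0, 5403, 0, 0⟩)
(.leaf ⟨2, 12395, 0, 0⟩))
(.leaf ⟨0, 15906, 0, 0⟩)))
(.node (.node (.node (.leaf ⟨0, 2143, 0, 0⟩)
(.leaf ⟨2, 2363, 0, 0⟩))
(.leaf ⟨0, 14089, 0, 0⟩))
(.node (.leaf ⟨0, 8945, 0, 0⟩)
(.leaf ⟨1, 17, 96, 0⟩))))
(.node (.node (.node (.node (.leaf ⟨0, 1468, 0, 0⟩)
(.leaf ⟨1, 104, 76, 0⟩))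
(.leaf ⟨0, 13264, 0, 0⟩))
(.node (.node (.leaf ⟨0, 7632, 0, 0⟩)
(.leaf ⟨2, 15881, 0, 0⟩))
(.leaf ⟨1, 5, 36, 0⟩)))
(.node (.node (.node (.leaf ⟨0, 3809, 0, 0⟩)
(.leaf ⟨2, 7969, 0, 0⟩))
(.leaf ⟨0, 14993, 0, 0⟩))
(.node (.leaf ⟨0, 10025, 0, 0⟩)
(.leaf ⟨1, 68, 3, 0⟩))))))
(.node (.node (.node (.node (.node (.node (.leaf ⟨0, 494, 0, 0⟩)
(.leaf ⟨1, 7, 11, 0⟩))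
(.leaf ⟨0, 11653, 0, 0⟩))
(.node (.node (.leaf ⟨0, 4856, 0, 0⟩)
(.leaf ⟨2, 11287, 0, 0⟩))
(.leaf ⟨0, 15748, 0, 0⟩)))
(.node (.node (.node (.leaf ⟨0, 1945, 0, 0⟩)
(.leaf ⟨2, 2171, 0, 0⟩))
(.leaf ⟨0, 13849, 0, 0⟩))
(.node (.leaf ⟨0, 8684, 0, 0⟩)
(.leaf ⟨1, 17, 10, 0⟩))))
(.node (.node (.node (.node (.leaf ⟨0, 1273, 0, 0⟩)
(.leaf ⟨1, 97, 104, 0⟩))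
(.leaf ⟨0, 12875, 0, 0⟩))
(.node (.node (.leaf ⟨0, 7073, 0, 0⟩)
(.leaf ⟨2, 15109, 0, 0⟩))
(.leaf ⟨1, 3, 9, 0⟩)))
(.node (.node (.node (.leaf ⟨0, 3127, 0, 0⟩)
(.leaf ⟨2, 7073, 0, 0⟩))
(.leaf ⟨0, 14816, 0, 0⟩))
(.node (.leaf ⟨0, 9755, 0, 0⟩)
(.leaf ⟨1, 33, 80, 0⟩)))))
(.node (.node (.node (.node (.node (.leaf ⟨0, 892, 0, 0⟩)
(.leaf ⟨1, 21, 25, 0⟩))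
(.leaf ⟨0, 12319, 0, 0⟩))
(.node (.node (.leaf ⟨0, 5937, 0, 0⟩)
(.leaf ⟨2, 13701, 0, 0⟩))
(.leaf ⟨1, 1, 8, 0⟩)))
(.node (.node (.node (.leaf ⟨0, 2300, 0, 0⟩)
(.leaf ⟨2, 4001, 0, 0⟩))
(.leaf ⟨0, 14160, 0, 0⟩))
(.node (.leaf ⟨0, 9271, 0, 0⟩)
(.leaf ⟨1, 20, 36, 0⟩))))
(.node (.node (.node (.node (.leaf ⟨0, 1597, 0, 0⟩)
(.leaf ⟨2, 239, 0, 0⟩))
(.leaf ⟨0, 13395, 0, 0⟩))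
(.node (.leaf ⟨0, 7942, 0, 0⟩)
(.leaf ⟨1, 6, 18, 0⟩)))
(.node (.node (.node (.leaf ⟨0, 4033, 0, 0⟩)
(.leaf ⟨2, 9065, 0, 0⟩))
(.leaf ⟨0, 15248, 0, 0⟩))
(.node (.leaf ⟨0, 10160, 0, 0⟩)
(.leaf ⟨1, 68, 66, 0⟩)))))))
(.node (.node (.node (.node (.node (.node (.node (.leaf ⟨0, 375, 0, 0⟩)
(.leaf ⟨1, 96, 36, 0⟩))
(.leaf ⟨0, 11279, 0, 0⟩))
(.node (.node (.leaf ⟨0, 4639, 0, 0⟩)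
(.leaf ⟨2, 10347, 0, 0⟩))
(.leaf ⟨0, 15626, 0, 0⟩)))
(.node (.node (.node (.leaf ⟨0, 1852, 0, 0⟩)
(.leaf ⟨2, 1387, 0, 0⟩))
(.leaf ⟨0, 13792, 0, 0⟩))
(.node (.leaf ⟨0, 8479, 0, 0⟩)
(.leaf ⟨1, 12, 5, 0⟩))))
(.node (.node (.node (.node (.leaf ⟨0, 1243, 0, 0⟩)
(.leaf ⟨1, 84, 100, 0⟩))
(.leaf ⟨0, 12829, 0, 0⟩))
(.node (.node (.leaf ⟨0, 6632, 0, 0⟩)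
(.leaf ⟨2, 14855, 0, 0⟩))
(.leaf ⟨1, 32, 32, 0⟩)))
(.node (.node (.node (.leaf ⟨0, 3032, 0, 0⟩)
(.leaf ⟨2, 6251, 0, 0⟩))
(.leaf ⟨0, 14611, 0, 0⟩))
(.node (.leaf ⟨0, 9529, 0, 0⟩)
(.leaf ⟨1, 33, 34, 0⟩)))))
(.node (.node (.node (.node (.node (.leaf ⟨0, 764, 0, 0⟩)
(.leaf ⟨1, 19, 21, 0⟩))
(.leaf ⟨0, 12065, 0, 0⟩))
(.node (.node (.leaf ⟨0, 5655, 0, 0⟩)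
(.leaf ⟨2, 13189, 0, 0⟩))
(.leaf ⟨0, 16130, 0, 0⟩)))
(.node (.node (.node (.leaf ⟨0, 2279, 0, 0⟩)
(.leaf ⟨2, 2921, 0, 0⟩))
(.leaf ⟨0, 14114, 0, 0⟩))
(.node (.leaf ⟨0, 9073, 0, 0⟩)
(.leaf ⟨1, 20, 10, 0⟩))))
(.node (.node (.node (.node (.leaf ⟨0, 1521, 0, 0⟩)
(.leaf ⟨1, 112, 56, 0⟩))
(.leaf ⟨0, 13355, 0, 0⟩))
(.node (.leaf ⟨0, 7828, 0, 0⟩)
(.leaf ⟨1, 5, 96, 0⟩)))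
(.node (.node (.node (.leaf ⟨0, 3944, 0, 0⟩)
(.leaf ⟨2, 8555, 0, 0⟩))
(.leaf ⟨0, 15116, 0, 0⟩))
(.node (.leaf ⟨0, 10096, 0, 0⟩)
(.leaf ⟨1, 68, 20, 0⟩))))))
(.node (.node (.node (.node (.node (.node (.leaf ⟨0, 607, 0, 0⟩)
(.leaf ⟨1, 11, 11, 0⟩))
(.leaf ⟨0, 11795, 0, 0⟩))
(.node (.node (.leaf ⟨0, 5104, 0, 0⟩)
(.leaf ⟨2, 11921, 0, 0⟩))
(.leaf ⟨0, 15881, 0, 0⟩)))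
(.node (.node (.node (.leaf ⟨0, 2004, 0, 0⟩)
(.leaf ⟨2, 2267, 0, 0⟩))
(.leaf ⟨0, 13955, 0, 0⟩))
(.node (.leaf ⟨0, 8766, 0, 0⟩)
(.leaf ⟨1, 17, 36, 0⟩))))
(.node (.node (.node (.node (.leaf ⟨0, 1371, 0, 0⟩)
(.leaf ⟨1, 100, 76, 0⟩))
(.leaf ⟨0, 13081, 0, 0⟩))
(.node (.node (.leaf ⟨0, 7195, 0, 0⟩)
(.leaf ⟨2, 15493, 0, 0⟩))
(.leaf ⟨1, 5, 10, 0⟩)))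
(.node (.node (.node (.leaf ⟨0, 3500, 0, 0⟩)
(.leaf ⟨2, 7687, 0, 0⟩))
(.leaf ⟨0, 14873, 0, 0⟩))
(.node (.leaf ⟨0, 9842, 0, 0⟩)
(.leaf ⟨1, 40, 72, 0⟩)))))
(.node (.node (.node (.node (.node (.leaf ⟨0, 1002, 0, 0⟩)
(.leaf ⟨1, 26, 11, 0⟩))
(.leaf ⟨0, 12381, 0, 0⟩))
(.node (.node (.leaf ⟨0, 6049, 0, 0⟩)
(.leaf ⟨2, 13957, 0, 0⟩))
(.leaf ⟨1, 4, 32, 0⟩)))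
(.node (.node (.node (.leaf ⟨0, 2540, 0, 0⟩)
(.leaf ⟨2, 4473, 0, 0⟩))
(.leaf ⟨0, 14272, 0, 0⟩))
(.node (.leaf ⟨0, 9310, 0, 0⟩)
(.leaf ⟨1, 20, 96, 0⟩))))
(.node (.node (.node (.node (.leaf ⟨0, 1722, 0, 0⟩)
(.leaf ⟨2, 505, 0, 0⟩))
(.leaf ⟨0, 13478, 0, 0⟩))
(.node (.leaf ⟨0, 8068, 0, 0⟩)
(.leaf ⟨1, 6, 65, 0⟩)))
(.node (.node (.node (.leaf ⟨0, 4207, 0, 0⟩)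
(.leaf ⟨2, 9303, 0, 0⟩))
(.leaf ⟨0, 15381, 0, 0⟩))
(.node (.leaf ⟨0, 10301, 0, 0⟩)
(.leaf ⟨1, 72, 40, 0⟩))))))))
(.node (.node (.node (.node (.node (.node (.node (.node (.leaf ⟨0, 253, 0, 0⟩)
(.leaf ⟨1, 96, 12, 0⟩))
(.leaf ⟨0, 11153, 0, 0⟩))
(.node (.node (.leaf ⟨0, 4581, 0, 0⟩)
(.leaf ⟨2, 10129, 0, 0⟩))
(.leaf ⟨0, 15619, 0, 0⟩)))
(.node (.node (.node (.leaf ⟨0, 1845, 0, 0⟩)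
(.leaf ⟨2, 1211, 0, 0⟩))
(.leaf ⟨0, 13713, 0, 0⟩))
(.node (.leaf ⟨0, 8430, 0, 0⟩)
(.leaf ⟨1, 10, 9, 0⟩))))
(.node (.node (.node (.node (.leaf ⟨0, 1150, 0, 0⟩)
(.leaf ⟨1, 76, 100, 0⟩))
(.leaf ⟨0, 12601, 0, 0⟩))
(.node (.node (.leaf ⟨0, 6265, 0, 0⟩)
(.leaf ⟨2, 14365, 0, 0⟩))
(.leaf ⟨1, 16, 64, 0⟩)))
(.node (.node (.node (.leaf ⟨0, 2808, 0, 0⟩)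
(.leaf ⟨2, 6033, 0, 0⟩))
(.leaf ⟨0, 14483, 0, 0⟩))
(.node (.leaf ⟨0, 9449, 0, 0⟩)
(.leaf ⟨1, 33, 18, 0⟩)))))
(.node (.node (.node (.node (.node (.leaf ⟨0, 757, 0, 0⟩)
(.leaf ⟨1, 14, 11, 0⟩))
(.leaf ⟨0, 12038, 0, 0⟩))
(.node (.node (.leaf ⟨0, 5604, 0, 0⟩)
(.leaf ⟨2, 12815, 0, 0⟩))
(.leaf ⟨0, 16008, 0, 0⟩)))
(.node (.node (.node (.leaf ⟨0, 2173, 0, 0⟩)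
(.leaf ⟨2, 2619, 0, 0⟩))
(.leaf ⟨0, 14098, 0, 0⟩))
(.node (.leaf ⟨0, 9017, 0, 0⟩)
(.leaf ⟨1, 20, 3, 0⟩))))
(.node (.node (.node (.node (.leaf ⟨0, 1509, 0, 0⟩)
(.leaf ⟨1, 104, 100, 0⟩))
(.leaf ⟨0, 13339, 0, 0⟩))
(.node (.leaf ⟨0, 7699, 0, 0⟩)
(.leaf ⟨1, 5, 66, 0⟩)))
(.node (.node (.node (.leaf ⟨0, 3824, 0, 0⟩)
(.leaf ⟨2, 8379, 0, 0⟩))
(.leaf ⟨0, 15109, 0, 0⟩))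
(.node (.leaf ⟨0, 10051, 0, 0⟩)
(.leaf ⟨1, 68, 10, 0⟩))))))
(.node (.node (.node (.node (.node (.node (.leaf ⟨0, 505, 0, 0⟩)
(.leaf ⟨1, 7, 21, 0⟩))
(.leaf ⟨0, 11728, 0, 0⟩))
(.node (.node (.leaf ⟨0, 5076, 0, 0⟩)
(.leaf ⟨2, 11783, 0, 0⟩))
(.leaf ⟨0, 15808, 0, 0⟩)))
(.node (.node (.node (.leaf ⟨0, 1970, 0, 0⟩)
(.leaf ⟨2, 2235, 0, 0⟩))
(.leaf ⟨0, 13873, 0, 0⟩))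
(.node (.leaf ⟨0, 8751, 0, 0⟩)
(.leaf ⟨1, 17, 20, 0⟩))))
(.node (.node (.node (.node (.leaf ⟨0, 1335, 0, 0⟩)
(.leaf ⟨1, 98, 104, 0⟩))
(.leaf ⟨0, 13067, 0, 0⟩))
(.node (.node (.leaf ⟨0, 7120, 0, 0⟩)
(.leaf ⟨2, 15371, 0, 0⟩))
(.leaf ⟨1, 5, 3, 0⟩)))
(.node (.node (.node (.leaf ⟨0, 3306, 0, 0⟩)
(.leaf ⟨2, 7303, 0, 0⟩))
(.leaf ⟨0, 14862, 0, 0⟩))
(.node (.leaf ⟨0, 9785, 0, 0⟩)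
(.leaf ⟨1, 36, 17, 0⟩)))))
(.node (.node (.node (.node (.node (.leaf ⟨0, 986, 0, 0⟩)
(.leaf ⟨1, 25, 13, 0⟩))
(.leaf ⟨0, 12349, 0, 0⟩))
(.node (.node (.leaf ⟨0, 6000, 0, 0⟩)
(.leaf ⟨2, 13835, 0, 0⟩))
(.leaf ⟨1, 4, 2, 0⟩)))
(.node (.node (.node (.leaf ⟨0, 2533, 0, 0⟩)
(.leaf ⟨2, 4331, 0, 0⟩))
(.leaf ⟨0, 14212, 0, 0⟩))
(.node (.leaf ⟨0, 9295, 0, 0⟩)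
(.leaf ⟨1, 20, 66, 0⟩))))
(.node (.node (.node (.node (.leaf ⟨0, 1657, 0, 0⟩)
(.leaf ⟨2, 443, 0, 0⟩))
(.leaf ⟨0, 13451, 0, 0⟩))
(.node (.leaf ⟨0, 8001, 0, 0⟩)
(.leaf ⟨1, 6, 34, 0⟩)))
(.node (.node (.node (.leaf ⟨0, 4048, 0, 0⟩)
(.leaf ⟨2, 9271, 0, 0⟩))
(.leaf ⟨0, 15371, 0, 0⟩))
(.node (.leaf ⟨0, 10271, 0, 0⟩)
(.leaf ⟨1, 68, 96, 0⟩)))))))
(.node (.node (.node (.node (.node (.node (.node (.leaf ⟨0, 443, 0, 0⟩)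
(.leaf ⟨1, 96, 72, 0⟩))
(.leaf ⟨0, 11307, 0, 0⟩))
(.node (.node (.leaf ⟨0, 4715, 0, 0⟩)
(.leaf ⟨2, 11141, 0, 0⟩))
(.leaf ⟨0, 15649, 0, 0⟩)))
(.node (.node (.node (.leaf ⟨0, 1905, 0, 0⟩)
(.leaf ⟨2, 1595, 0, 0⟩))
(.leaf ⟨0, 13838, 0, 0⟩))
(.node (.leaf ⟨0, 8555, 0, 0⟩)
(.leaf ⟨1, 17, 3, 0⟩))))
(.node (.node (.node (.node (.leaf ⟨0, 1262, 0, 0⟩)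
(.leaf ⟨1, 88, 88, 0⟩))
(.leaf ⟨0, 12845, 0, 0⟩))
(.node (.node (.leaf ⟨0, 6699, 0, 0⟩)
(.leaf ⟨2, 14873, 0, 0⟩))
(.leaf ⟨1, 64, 32, 0⟩)))
(.node (.node (.node (.leaf ⟨0, 3048, 0, 0⟩)
(.leaf ⟨2, 7043, 0, 0⟩))
(.leaf ⟨0, 14737, 0, 0⟩))
(.node (.leaf ⟨0, 9700, 0, 0⟩)
(.leaf ⟨1, 33, 65, 0⟩)))))
(.node (.node (.node (.node (.node (.leaf ⟨0, 875, 0, 0⟩)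
(.leaf ⟨1, 21, 7, 0⟩))
(.leaf ⟨0, 12168, 0, 0⟩))
(.node (.node (.leaf ⟨0, 5907, 0, 0⟩)
(.leaf ⟨2, 13335, 0, 0⟩))
(.leaf ⟨0, 16160, 0, 0⟩)))
(.node (.node (.node (.leaf ⟨0, 2293, 0, 0⟩)
(.leaf ⟨2, 3193, 0, 0⟩))
(.leaf ⟨0, 14145, 0, 0⟩))
(.node (.leaf ⟨0, 9192, 0, 0⟩)
(.leaf ⟨1, 20, 20, 0⟩))))
(.node (.node (.node (.node (.leaf ⟨0, 1567, 0, 0⟩)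
(.leaf ⟨1, 112, 100, 0⟩))
(.leaf ⟨0, 13366, 0, 0⟩))
(.node (.leaf ⟨0, 7876, 0, 0⟩)
(.leaf ⟨1, 6, 9, 0⟩)))
(.node (.node (.node (.leaf ⟨0, 4002, 0, 0⟩)
(.leaf ⟨2, 8811, 0, 0⟩))
(.leaf ⟨0, 15233, 0, 0⟩))
(.node (.leaf ⟨0, 10132, 0, 0⟩)
(.leaf ⟨1, 68, 36, 0⟩))))))
(.node (.node (.node (.node (.node (.node (.leaf ⟨0, 637, 0, 0⟩)
(.leaf ⟨1, 11, 35, 0⟩))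
(.leaf ⟨0, 11909, 0, 0⟩))
(.node (.node (.leaf ⟨0, 5179, 0, 0⟩)
(.leaf ⟨2, 12065, 0, 0⟩))
(.leaf ⟨0, 15890, 0, 0⟩)))
(.node (.node (.node (.leaf ⟨0, 2020, 0, 0⟩)
(.leaf ⟨2, 2285, 0, 0⟩))
(.leaf ⟨0, 13985, 0, 0⟩))
(.node (.leaf ⟨0, 8811, 0, 0⟩)
(.leaf ⟨1, 17, 66, 0⟩))))
(.node (.node (.node (.node (.leaf ⟨0, 1402, 0, 0⟩)
(.leaf ⟨1, 100, 104, 0⟩))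
(.leaf ⟨0, 13201, 0, 0⟩))
(.node (.node (.leaf ⟨0, 7585, 0, 0⟩)
(.leaf ⟨2, 15633, 0, 0⟩))
(.leaf ⟨1, 5, 20, 0⟩)))
(.node (.node (.node (.leaf ⟨0, 3554, 0, 0⟩)
(.leaf ⟨2, 7825, 0, 0⟩))
(.leaf ⟨0, 14915, 0, 0⟩))
(.node (.leaf ⟨0, 9995, 0, 0⟩)
(.leaf ⟨1, 65, 17, 0⟩)))))
(.node (.node (.node (.node (.node (.leaf ⟨0, 1012, 0, 0⟩)
(.leaf ⟨1, 35, 19, 0⟩))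
(.leaf ⟨0, 12431, 0, 0⟩))
(.node (.node (.leaf ⟨0, 6081, 0, 0⟩)
(.leaf ⟨2, 14085, 0, 0⟩))
(.leaf ⟨1, 8, 4, 0⟩)))
(.node (.node (.node (.leaf ⟨0, 2591, 0, 0⟩)
(.leaf ⟨2, 4729, 0, 0⟩))
(.leaf ⟨0, 14365, 0, 0⟩))
(.node (.leaf ⟨0, 9326, 0, 0⟩)
(.leaf ⟨1, 24, 72, 0⟩))))
(.node (.node (.node (.node (.leaf ⟨0, 1770, 0, 0⟩)
(.leaf ⟨2, 761, 0, 0⟩))
(.leaf ⟨0, 13581, 0, 0⟩))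
(.node (.leaf ⟨0, 8128, 0, 0⟩)
(.leaf ⟨1, 6, 80, 0⟩)))
(.node (.node (.node (.leaf ⟨0, 4327, 0, 0⟩)
(.leaf ⟨2, 9323, 0, 0⟩))
(.leaf ⟨0, 15395, 0, 0⟩))
(.node (.leaf ⟨0, 10767, 0, 0⟩)
(.leaf ⟨1, 72, 96, 0⟩)))))))))
(.node (.node (.node (.node (.node (.node (.node (.node (.node (.leaf ⟨0, 247, 0, 0⟩)
(.leaf ⟨1, 80, 80, 0⟩))
(.leaf ⟨0, 10835, 0, 0⟩))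
(.node (.node (.leaf ⟨0, 4411, 0, 0⟩)
(.leaf ⟨2, 9755, 0, 0⟩))
(.leaf ⟨0, 15505, 0, 0⟩)))
(.node (.node (.node (.leaf ⟨0, 1835, 0, 0⟩)
(.leaf ⟨2, 1135, 0, 0⟩))
(.leaf ⟨0, 13701, 0, 0⟩))
(.node (.leaf ⟨0, 8367, 0, 0⟩)
(.leaf ⟨1, 9, 72, 0⟩))))
(.node (.node (.node (.node (.leaf ⟨0, 1147, 0, 0⟩)
(.leaf ⟨1, 76, 84, 0⟩))
(.leaf ⟨0, 12573, 0, 0⟩))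
(.node (.node (.leaf ⟨0, 6175, 0, 0⟩)
(.leaf ⟨2, 14359, 0, 0⟩))
(.leaf ⟨1, 16, 8, 0⟩)))
(.node (.node (.node (.leaf ⟨0, 2802, 0, 0⟩)
(.leaf ⟨2, 5659, 0, 0⟩))
(.leaf ⟨0, 14411, 0, 0⟩))
(.node (.leaf ⟨0, 9340, 0, 0⟩)
(.leaf ⟨1, 33, 12, 0⟩)))))
(.node (.node (.node (.node (.node (.leaf ⟨0, 750, 0, 0⟩)
(.leaf ⟨1, 13, 25, 0⟩))
(.leaf ⟨0, 12035, 0, 0⟩))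
(.node (.node (.leaf ⟨0, 5588, 0, 0⟩)
(.leaf ⟨2, 12443, 0, 0⟩))
(.leaf ⟨0, 16002, 0, 0⟩)))
(.node (.node (.node (.leaf ⟨0, 2167, 0, 0⟩)
(.leaf ⟨2, 2533, 0, 0⟩))
(.leaf ⟨0, 14092, 0, 0⟩))
(.node (.leaf ⟨0, 8987, 0, 0⟩)
(.leaf ⟨1, 18, 17, 0⟩))))
(.node (.node (.node (.node (.leaf ⟨0, 1497, 0, 0⟩)
(.leaf ⟨1, 104, 97, 0⟩))
(.leaf ⟨0, 13327, 0, 0⟩))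
(.node (.node (.leaf ⟨0, 7687, 0, 0⟩)
(.leaf ⟨2, 15905, 0, 0⟩))
(.leaf ⟨1, 5, 48, 0⟩)))
(.node (.node (.node (.leaf ⟨0, 3812, 0, 0⟩)
(.leaf ⟨2, 8303, 0, 0⟩))
(.leaf ⟨0, 15009, 0, 0⟩))
(.node (.leaf ⟨0, 10034, 0, 0⟩)
(.leaf ⟨1, 68, 6, 0⟩))))))
(.node (.node (.node (.node (.node (.node (.leaf ⟨0, 501, 0, 0⟩)
(.leaf ⟨1, 7, 14, 0⟩))
(.leaf ⟨0, 11681, 0, 0⟩))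
(.node (.node (.leaf ⟨0, 4984, 0, 0⟩)
(.leaf ⟨2, 11665, 0, 0⟩))
(.leaf ⟨0, 15760, 0, 0⟩)))
(.node (.node (.node (.leaf ⟨0, 1961, 0, 0⟩)
(.leaf ⟨2, 2223, 0, 0⟩))
(.leaf ⟨0, 13859, 0, 0⟩))
(.node (.leaf ⟨0, 8696, 0, 0⟩)
(.leaf ⟨1, 17, 17, 0⟩))))
(.node (.node (.node (.node (.leaf ⟨0, 1276, 0, 0⟩)
(.leaf ⟨1, 98, 98, 0⟩))
(.leaf ⟨0, 12935, 0, 0⟩))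
(.node (.node (.leaf ⟨0, 7108, 0, 0⟩)
(.leaf ⟨2, 15137, 0, 0⟩))
(.leaf ⟨1, 3, 17, 0⟩)))
(.node (.node (.node (.leaf ⟨0, 3193, 0, 0⟩)
(.leaf ⟨2, 7183, 0, 0⟩))
(.leaf ⟨0, 14859, 0, 0⟩))
(.node (.leaf ⟨0, 9771, 0, 0⟩)
(.leaf ⟨1, 34, 17, 0⟩)))))
(.node (.node (.node (.node (.node (.leaf ⟨0, 954, 0, 0⟩)
(.leaf ⟨1, 22, 19, 0⟩))
(.leaf ⟨0, 12343, 0, 0⟩))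
(.node (.node (.leaf ⟨0, 5969, 0, 0⟩)
(.leaf ⟨2, 13729, 0, 0⟩))
(.leaf ⟨1, 2, 2, 0⟩)))
(.node (.node (.node (.leaf ⟨0, 2492, 0, 0⟩)
(.leaf ⟨2, 4219, 0, 0⟩))
(.leaf ⟨0, 14209, 0, 0⟩))
(.node (.leaf ⟨0, 9277, 0, 0⟩)
(.leaf ⟨1, 20, 48, 0⟩))))
(.node (.node (.node (.node (.leaf ⟨0, 1627, 0, 0⟩)
(.leaf ⟨2, 367, 0, 0⟩))
(.leaf ⟨0, 13401, 0, 0⟩))
(.node (.leaf ⟨0, 7956, 0, 0⟩)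
(.leaf ⟨1, 6, 24, 0⟩)))
(.node (.node (.node (.leaf ⟨0, 4036, 0, 0⟩)
(.leaf ⟨2, 9247, 0, 0⟩))
(.leaf ⟨0, 15296, 0, 0⟩))
(.node (.leaf ⟨0, 10192, 0, 0⟩)
(.leaf ⟨1, 68, 72, 0⟩)))))))
(.node (.node (.node (.node (.node (.node (.node (.leaf ⟨0, 381, 0, 0⟩)
(.leaf ⟨1, 96, 48, 0⟩))
(.leaf ⟨0, 11291, 0, 0⟩))
(.node (.node (.leaf ⟨0, 4667, 0, 0⟩)
(.leaf ⟨2, 10767, 0, 0⟩))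
(.leaf ⟨0, 15633, 0, 0⟩)))
(.node (.node (.node (.leaf ⟨0, 1881, 0, 0⟩)
(.leaf ⟨2, 1509, 0, 0⟩))
(.leaf ⟨0, 13835, 0, 0⟩))
(.node (.leaf ⟨0, 8503, 0, 0⟩)
(.leaf ⟨1, 12, 17, 0⟩))))
(.node (.node (.node (.node (.leaf ⟨0, 1255, 0, 0⟩)
(.leaf ⟨1, 88, 76, 0⟩))
(.leaf ⟨0, 12839, 0, 0⟩))
(.node (.node (.leaf ⟨0, 6671, 0, 0⟩)
(.leaf ⟨2, 14861, 0, 0⟩))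
(.leaf ⟨1, 64, 8, 0⟩)))
(.node (.node (.node (.leaf ⟨0, 3042, 0, 0⟩)
(.leaf ⟨2, 6671, 0, 0⟩))
(.leaf ⟨0, 14617, 0, 0⟩))
(.node (.leaf ⟨0, 9585, 0, 0⟩)
(.leaf ⟨1, 33, 40, 0⟩)))))
(.node (.node (.node (.node (.node (.leaf ⟨0, 827, 0, 0⟩)
(.leaf ⟨1, 19, 35, 0⟩))
(.leaf ⟨0, 12161, 0, 0⟩))
(.node (.node (.leaf ⟨0, 5671, 0, 0⟩)
(.leaf ⟨2, 13217, 0, 0⟩))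
(.leaf ⟨0, 16136, 0, 0⟩)))
(.node (.node (.node (.leaf ⟨0, 2285, 0, 0⟩)
(.leaf ⟨2, 3041, 0, 0⟩))
(.leaf ⟨0, 14120, 0, 0⟩))
(.node (.leaf ⟨0, 9144, 0, 0⟩)
(.leaf ⟨1, 20, 17, 0⟩))))
(.node (.node (.node (.node (.leaf ⟨0, 1524, 0, 0⟩)
(.leaf ⟨1, 112, 88, 0⟩))
(.leaf ⟨0, 13363, 0, 0⟩))
(.node (.leaf ⟨0, 7873, 0, 0⟩)
(.leaf ⟨1, 6, 5, 0⟩)))
(.node (.node (.node (.leaf ⟨0, 3985, 0, 0⟩)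
(.leaf ⟨2, 8735, 0, 0⟩))
(.leaf ⟨0, 15128, 0, 0⟩))
(.node (.leaf ⟨0, 10117, 0, 0⟩)
(.leaf ⟨1, 68, 33, 0⟩))))))
(.node (.node (.node (.node (.node (.node (.leaf ⟨0, 631, 0, 0⟩)
(.leaf ⟨1, 11, 19, 0⟩))
(.leaf ⟨0, 11843, 0, 0⟩))
(.node (.node (.leaf ⟨0, 5167, 0, 0⟩)
(.leaf ⟨2, 12037, 0, 0⟩))
(.leaf ⟨0, 15884, 0, 0⟩)))
(.node (.node (.node (.leaf ⟨0, 2017, 0, 0⟩)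
(.leaf ⟨2, 2279, 0, 0⟩))
(.leaf ⟨0, 13958, 0, 0⟩))
(.node (.leaf ⟨0, 8791, 0, 0⟩)
(.leaf ⟨1, 17, 48, 0⟩))))
(.node (.node (.node (.node (.leaf ⟨0, 1395, 0, 0⟩)
(.leaf ⟨1, 100, 98, 0⟩))
(.leaf ⟨0, 13105, 0, 0⟩))
(.node (.node (.leaf ⟨0, 7557, 0, 0⟩)
(.leaf ⟨2, 15521, 0, 0⟩))
(.leaf ⟨1, 5, 17, 0⟩)))
(.node (.node (.node (.leaf ⟨0, 3540, 0, 0⟩)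
(.leaf ⟨2, 7699, 0, 0⟩))
(.leaf ⟨0, 14883, 0, 0⟩))
(.node (.leaf ⟨0, 9875, 0, 0⟩)
(.leaf ⟨1, 48, 72, 0⟩)))))
(.node (.node (.node (.node (.node (.leaf ⟨0, 1009, 0, 0⟩)
(.leaf ⟨1, 35, 7, 0⟩))
(.leaf ⟨0, 12403, 0, 0⟩))
(.node (.node (.leaf ⟨0, 6056, 0, 0⟩)
(.leaf ⟨2, 13985, 0, 0⟩))
(.leaf ⟨1, 8, 1, 0⟩)))
(.node (.node (.node (.leaf ⟨0, 2548, 0, 0⟩)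
(.leaf ⟨2, 4667, 0, 0⟩))
(.leaf ⟨0, 14359, 0, 0⟩))
(.node (.leaf ⟨0, 9323, 0, 0⟩)
(.leaf ⟨1, 24, 9, 0⟩))))
(.node (.node (.node (.node (.leaf ⟨0, 1766, 0, 0⟩)
(.leaf ⟨2, 635, 0, 0⟩))
(.leaf ⟨0, 13575, 0, 0⟩))
(.node (.leaf ⟨0, 8080, 0, 0⟩)
(.leaf ⟨1, 6, 68, 0⟩)))
(.node (.node (.node (.leaf ⟨0, 4219, 0, 0⟩)
(.leaf ⟨2, 9309, 0, 0⟩))
(.leaf ⟨0, 15385, 0, 0⟩))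
(.node (.leaf ⟨0, 10724, 0, 0⟩)
(.leaf ⟨1, 72, 72, 0⟩))))))))
(.node (.node (.node (.node (.node (.node (.node (.node (.leaf ⟨0, 319, 0, 0⟩)
(.leaf ⟨1, 96, 20, 0⟩))
(.leaf ⟨0, 11208, 0, 0⟩))
(.node (.node (.leaf ⟨0, 4596, 0, 0⟩)
(.leaf ⟨2, 10271, 0, 0⟩))
(.leaf ⟨0, 15622, 0, 0⟩)))
(.node (.node (.node (.leaf ⟨0, 1849, 0, 0⟩)
(.leaf ⟨2, 1273, 0, 0⟩))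
(.leaf ⟨0, 13764, 0, 0⟩))
(.node (.leaf ⟨0, 8441, 0, 0⟩)
(.leaf ⟨1, 10, 72, 0⟩))))
(.node (.node (.node (.node (.leaf ⟨0, 1211, 0, 0⟩)
(.leaf ⟨1, 84, 84, 0⟩))
(.leaf ⟨0, 12823, 0, 0⟩))
(.node (.node (.leaf ⟨0, 6616, 0, 0⟩)
(.leaf ⟨2, 14737, 0, 0⟩))
(.leaf ⟨1, 32, 8, 0⟩)))
(.node (.node (.node (.leaf ⟨0, 3000, 0, 0⟩)
(.leaf ⟨2, 6175, 0, 0⟩))
(.leaf ⟨0, 14603, 0, 0⟩))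
(.node (.leaf ⟨0, 9495, 0, 0⟩)
(.leaf ⟨1, 33, 24, 0⟩)))))
(.node (.node (.node (.node (.node (.leaf ⟨0, 761, 0, 0⟩)
(.leaf ⟨1, 19, 11, 0⟩))
(.leaf ⟨0, 12049, 0, 0⟩))
(.node (.node (.leaf ⟨0, 5616, 0, 0⟩)
(.leaf ⟨2, 12827, 0, 0⟩))
(.leaf ⟨0, 16064, 0, 0⟩)))
(.node (.node (.node (.leaf ⟨0, 2235, 0, 0⟩)
(.leaf ⟨2, 2873, 0, 0⟩))
(.leaf ⟨0, 14104, 0, 0⟩))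
(.node (.leaf ⟨0, 9049, 0, 0⟩)
(.leaf ⟨1, 20, 6, 0⟩))))
(.node (.node (.node (.node (.leaf ⟨0, 1514, 0, 0⟩)
(.leaf ⟨1, 104, 112, 0⟩))
(.leaf ⟨0, 13342, 0, 0⟩))
(.node (.leaf ⟨0, 7813, 0, 0⟩)
(.leaf ⟨1, 5, 72, 0⟩)))
(.node (.node (.node (.leaf ⟨0, 3937, 0, 0⟩)
(.leaf ⟨2, 8441, 0, 0⟩))
(.leaf ⟨0, 15113, 0, 0⟩))
(.node (.leaf ⟨0, 10065, 0, 0⟩)
(.leaf ⟨1, 68, 17, 0⟩))))))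
(.node (.node (.node (.node (.node (.node (.leaf ⟨0, 508, 0, 0⟩)
(.leaf ⟨1, 7, 67, 0⟩))
(.leaf ⟨0, 11783, 0, 0⟩))
(.node (.node (.leaf ⟨0, 5092, 0, 0⟩)
(.leaf ⟨2, 11795, 0, 0⟩))
(.leaf ⟨0, 15877, 0, 0⟩)))
(.node (.node (.node (.leaf ⟨0, 2001, 0, 0⟩)
(.leaf ⟨2, 2255, 0, 0⟩))
(.leaf ⟨0, 13891, 0, 0⟩))
(.node (.leaf ⟨0, 8763, 0, 0⟩)
(.leaf ⟨1, 17, 33, 0⟩))))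
(.node (.node (.node (.node (.leaf ⟨0, 1341, 0, 0⟩)
(.leaf ⟨1, 100, 44, 0⟩))
(.leaf ⟨0, 13075, 0, 0⟩))
(.node (.node (.leaf ⟨0, 7183, 0, 0⟩)
(.leaf ⟨2, 15379, 0, 0⟩))
(.leaf ⟨1, 5, 6, 0⟩)))
(.node (.node (.node (.leaf ⟨0, 3314, 0, 0⟩)
(.leaf ⟨2, 7569, 0, 0⟩))
(.leaf ⟨0, 14869, 0, 0⟩))
(.node (.leaf ⟨0, 9799, 0, 0⟩)
(.leaf ⟨1, 36, 96, 0⟩)))))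
(.node (.node (.node (.node (.node (.leaf ⟨0, 998, 0, 0⟩)
(.leaf ⟨1, 25, 21, 0⟩))
(.leaf ⟨0, 12375, 0, 0⟩))
(.node (.node (.leaf ⟨0, 6033, 0, 0⟩)
(.leaf ⟨2, 13845, 0, 0⟩))
(.leaf ⟨1, 4, 8, 0⟩)))
(.node (.node (.node (.leaf ⟨0, 2537, 0, 0⟩)
(.leaf ⟨2, 4411, 0, 0⟩))
(.leaf ⟨0, 14224, 0, 0⟩))
(.node (.leaf ⟨0, 9307, 0, 0⟩)
(.leaf ⟨1, 20, 72, 0⟩))))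
(.node (.node (.node (.node (.leaf ⟨0, 1715, 0, 0⟩)
(.leaf ⟨2, 493, 0, 0⟩))
(.leaf ⟨0, 13459, 0, 0⟩))
(.node (.leaf ⟨0, 8065, 0, 0⟩)
(.leaf ⟨1, 6, 40, 0⟩)))
(.node (.node (.node (.leaf ⟨0, 4159, 0, 0⟩)
(.leaf ⟨2, 9277, 0, 0⟩))
(.leaf ⟨0, 15374, 0, 0⟩))
(.node (.leaf ⟨0, 10295, 0, 0⟩)
(.leaf ⟨1, 72, 17, 0⟩)))))))
(.node (.node (.node (.node (.node (.node (.node (.leaf ⟨0, 491, 0, 0⟩)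
(.leaf ⟨1, 96, 96, 0⟩))
(.leaf ⟨0, 11339, 0, 0⟩))
(.node (.node (.leaf ⟨0, 4729, 0, 0⟩)
(.leaf ⟨2, 11169, 0, 0⟩))
(.leaf ⟨0, 15745, 0, 0⟩)))
(.node (.node (.node (.leaf ⟨0, 1912, 0, 0⟩)
(.leaf ⟨2, 2017, 0, 0⟩))
(.leaf ⟨0, 13845, 0, 0⟩))
(.node (.leaf ⟨0, 8569, 0, 0⟩)
(.leaf ⟨1, 17, 6, 0⟩))))
(.node (.node (.node (.node (.leaf ⟨0, 1269, 0, 0⟩)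
(.leaf ⟨1, 88, 112, 0⟩))
(.leaf ⟨0, 12853, 0, 0⟩))
(.node (.node (.leaf ⟨0, 7045, 0, 0⟩)
(.leaf ⟨2, 14993, 0, 0⟩))
(.leaf ⟨1, 3, 3, 0⟩)))
(.node (.node (.node (.leaf ⟨0, 3103, 0, 0⟩)
(.leaf ⟨2, 7049, 0, 0⟩))
(.leaf ⟨0, 14788, 0, 0⟩))
(.node (.leaf ⟨0, 9743, 0, 0⟩)
(.leaf ⟨1, 33, 68, 0⟩)))))
(.node (.node (.node (.node (.node (.leaf ⟨0, 889, 0, 0⟩)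
(.leaf ⟨1, 21, 19, 0⟩))
(.leaf ⟨0, 12192, 0, 0⟩))
(.node (.node (.leaf ⟨0, 5923, 0, 0⟩)
(.leaf ⟨2, 13341, 0, 0⟩))
(.leaf ⟨1, 0, 0, 0⟩)))
(.node (.node (.node (.leaf ⟨0, 2297, 0, 0⟩)
(.leaf ⟨2, 3973, 0, 0⟩))
(.leaf ⟨0, 14148, 0, 0⟩))
(.node (.leaf ⟨0, 9247, 0, 0⟩)
(.leaf ⟨1, 20, 33, 0⟩))))
(.node (.node (.node (.node (.leaf ⟨0, 1591, 0, 0⟩)
(.leaf ⟨1, 112, 112, 0⟩))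
(.leaf ⟨0, 13370, 0, 0⟩))
(.node (.leaf ⟨0, 7904, 0, 0⟩)
(.leaf ⟨1, 6, 12, 0⟩)))
(.node (.node (.node (.leaf ⟨0, 4008, 0, 0⟩)
(.leaf ⟨2, 9017, 0, 0⟩))
(.leaf ⟨0, 15236, 0, 0⟩))
(.node (.leaf ⟨0, 10146, 0, 0⟩)
(.leaf ⟨1, 68, 48, 0⟩))))))
(.node (.node (.node (.node (.node (.node (.leaf ⟨0, 699, 0, 0⟩)
(.leaf ⟨1, 13, 7, 0⟩))
(.leaf ⟨0, 11921, 0, 0⟩))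
(.node (.node (.leaf ⟨0, 5241, 0, 0⟩)
(.leaf ⟨2, 12347, 0, 0⟩))
(.leaf ⟨0, 15896, 0, 0⟩)))
(.node (.node (.node (.leaf ⟨0, 2032, 0, 0⟩)
(.leaf ⟨2, 2293, 0, 0⟩))
(.leaf ⟨0, 14085, 0, 0⟩))
(.node (.leaf ⟨0, 8825, 0, 0⟩)
(.leaf ⟨1, 17, 72, 0⟩))))
(.node (.node (.node (.node (.leaf ⟨0, 1459, 0, 0⟩)
(.leaf ⟨1, 104, 44, 0⟩))
(.leaf ⟨0, 13250, 0, 0⟩))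
(.node (.node (.leaf ⟨0, 7620, 0, 0⟩)
(.leaf ⟨2, 15875, 0, 0⟩))
(.leaf ⟨1, 5, 33, 0⟩)))
(.node (.node (.node (.leaf ⟨0, 3560, 0, 0⟩)
(.leaf ⟨2, 7941, 0, 0⟩))
(.leaf ⟨0, 14981, 0, 0⟩))
(.node (.leaf ⟨0, 10009, 0, 0⟩)
(.leaf ⟨1, 66, 17, 0⟩)))))
(.node (.node (.node (.node (.node (.leaf ⟨0, 1087, 0, 0⟩)
(.leaf ⟨1, 44, 100, 0⟩))
(.leaf ⟨0, 12443, 0, 0⟩))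
(.node (.node (.leaf ⟨0, 6084, 0, 0⟩)
(.leaf ⟨2, 14097, 0, 0⟩))
(.leaf ⟨1, 8, 16, 0⟩)))
(.node (.node (.node (.leaf ⟨0, 2619, 0, 0⟩)
(.leaf ⟨2, 5179, 0, 0⟩))
(.leaf ⟨0, 14375, 0, 0⟩))
(.node (.leaf ⟨0, 9333, 0, 0⟩)
(.leaf ⟨1, 33, 5, 0⟩))))
(.node (.node (.node (.node (.leaf ⟨0, 1778, 0, 0⟩)
(.leaf ⟨2, 875, 0, 0⟩))
(.leaf ⟨0, 13589, 0, 0⟩))
(.node (.leaf ⟨0, 8287, 0, 0⟩)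
(.leaf ⟨1, 9, 3, 0⟩)))
(.node (.node (.node (.leaf ⟨0, 4342, 0, 0⟩)
(.leaf ⟨2, 9331, 0, 0⟩))
(.leaf ⟨0, 15427, 0, 0⟩))
(.node (.leaf ⟨0, 10791, 0, 0⟩)
(.leaf ⟨1, 80, 20, 0⟩))))))))))
(.node (.node (.node (.node (.node (.node (.node (.node (.node (.node (.leaf ⟨0, 239, 0, 0⟩)
(.leaf ⟨1, 80, 72, 0⟩))
(.leaf ⟨0, 10827, 0, 0⟩))
(.node (.node (.leaf ⟨0, 4407, 0, 0⟩)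
(.leaf ⟨2, 9751, 0, 0⟩))
(.leaf ⟨0, 15494, 0, 0⟩)))
(.node (.node (.node (.leaf ⟨0, 1819, 0, 0⟩)
(.leaf ⟨2, 1009, 0, 0⟩))
(.leaf ⟨0, 13603, 0, 0⟩))
(.node (.leaf ⟨0, 8315, 0, 0⟩)
(.leaf ⟨1, 9, 17, 0⟩))))
(.node (.node (.node (.node (.leaf ⟨0, 1143, 0, 0⟩)
(.leaf ⟨1, 76, 76, 0⟩))
(.leaf ⟨0, 12571, 0, 0⟩))
(.node (.node (.leaf ⟨0, 6112, 0, 0⟩)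
(.leaf ⟨2, 14351, 0, 0⟩))
(.leaf ⟨1, 16, 4, 0⟩)))
(.node (.node (.node (.leaf ⟨0, 2796, 0, 0⟩)
(.leaf ⟨2, 5655, 0, 0⟩))
(.leaf ⟨0, 14393, 0, 0⟩))
(.node (.leaf ⟨0, 9338, 0, 0⟩)
(.leaf ⟨1, 33, 10, 0⟩)))))
(.node (.node (.node (.node (.node (.leaf ⟨0, 747, 0, 0⟩)
(.leaf ⟨1, 13, 21, 0⟩))
(.leaf ⟨0, 12000, 0, 0⟩))
(.node (.node (.leaf ⟨0, 5580, 0, 0⟩)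
(.leaf ⟨2, 12409, 0, 0⟩))
(.leaf ⟨0, 16001, 0, 0⟩)))
(.node (.node (.node (.leaf ⟨0, 2159, 0, 0⟩)
(.leaf ⟨2, 2425, 0, 0⟩))
(.leaf ⟨0, 14090, 0, 0⟩))
(.node (.leaf ⟨0, 8952, 0, 0⟩)
(.leaf ⟨1, 18, 3, 0⟩))))
(.node (.node (.node (.node (.leaf ⟨0, 1491, 0, 0⟩)
(.leaf ⟨1, 104, 88, 0⟩))
(.leaf ⟨0, 13280, 0, 0⟩))
(.node (.node (.leaf ⟨0, 7648, 0, 0⟩)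
(.leaf ⟨2, 15889, 0, 0⟩))
(.leaf ⟨1, 5, 40, 0⟩)))
(.node (.node (.node (.leaf ⟨0, 3810, 0, 0⟩)
(.leaf ⟨2, 8255, 0, 0⟩))
(.leaf ⟨0, 14996, 0, 0⟩))
(.node (.leaf ⟨0, 10033, 0, 0⟩)
(.leaf ⟨1, 68, 5, 0⟩))))))
(.node (.node (.node (.node (.node (.node (.leaf ⟨0, 499, 0, 0⟩)
(.leaf ⟨1, 7, 13, 0⟩))
(.leaf ⟨0, 11665, 0, 0⟩))
(.node (.node (.leaf ⟨0, 4921, 0, 0⟩)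
(.leaf ⟨2, 11653, 0, 0⟩))
(.leaf ⟨0, 15752, 0, 0⟩)))
(.node (.node (.node (.leaf ⟨0, 1955, 0, 0⟩)
(.leaf ⟨2, 2207, 0, 0⟩))
(.leaf ⟨0, 13850, 0, 0⟩))
(.node (.leaf ⟨0, 8692, 0, 0⟩)
(.leaf ⟨1, 17, 12, 0⟩))))
(.node (.node (.node (.node (.leaf ⟨0, 1274, 0, 0⟩)
(.leaf ⟨1, 97, 112, 0⟩))
(.leaf ⟨0, 12883, 0, 0⟩))
(.node (.node (.leaf ⟨0, 7106, 0, 0⟩)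
(.leaf ⟨2, 15121, 0, 0⟩))
(.leaf ⟨1, 3, 10, 0⟩)))
(.node (.node (.node (.leaf ⟨0, 3131, 0, 0⟩)
(.leaf ⟨2, 7105, 0, 0⟩))
(.leaf ⟨0, 14855, 0, 0⟩))
(.node (.leaf ⟨0, 9767, 0, 0⟩)
(.leaf ⟨1, 33, 96, 0⟩)))))
(.node (.node (.node (.node (.node (.leaf ⟨0, 953, 0, 0⟩)
(.leaf ⟨1, 22, 7, 0⟩))
(.leaf ⟨0, 12335, 0, 0⟩))
(.node (.node (.leaf ⟨0, 5944, 0, 0⟩)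
(.leaf ⟨2, 13713, 0, 0⟩))
(.leaf ⟨1, 2, 1, 0⟩)))
(.node (.node (.node (.leaf ⟨0, 2363, 0, 0⟩)
(.leaf ⟨2, 4207, 0, 0⟩))
(.leaf ⟨0, 14176, 0, 0⟩))
(.node (.leaf ⟨0, 9275, 0, 0⟩)
(.leaf ⟨1, 20, 40, 0⟩))))
(.node (.node (.node (.node (.leaf ⟨0, 1598, 0, 0⟩)
(.leaf ⟨2, 251, 0, 0⟩))
(.leaf ⟨0, 13397, 0, 0⟩))
(.node (.leaf ⟨0, 7953, 0, 0⟩)
(.leaf ⟨1, 6, 20, 0⟩)))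
(.node (.node (.node (.leaf ⟨0, 4034, 0, 0⟩)
(.leaf ⟨2, 9073, 0, 0⟩))
(.leaf ⟨0, 15264, 0, 0⟩))
(.node (.leaf ⟨0, 10177, 0, 0⟩)
(.leaf ⟨1, 68, 68, 0⟩)))))))
(.node (.node (.node (.node (.node (.node (.node (.leaf ⟨0, 379, 0, 0⟩)
(.leaf ⟨1, 96, 40, 0⟩))
(.leaf ⟨0, 11287, 0, 0⟩))
(.node (.node (.leaf ⟨0, 4663, 0, 0⟩)
(.leaf ⟨2, 10361, 0, 0⟩))
(.leaf ⟨0, 15628, 0, 0⟩)))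
(.node (.node (.node (.leaf ⟨0, 1875, 0, 0⟩)
(.leaf ⟨2, 1401, 0, 0⟩))
(.leaf ⟨0, 13831, 0, 0⟩))
(.node (.leaf ⟨0, 8495, 0, 0⟩)
(.leaf ⟨1, 12, 9, 0⟩))))
(.node (.node (.node (.node (.leaf ⟨0, 1246, 0, 0⟩)
(.leaf ⟨1, 84, 112, 0⟩))
(.leaf ⟨0, 12830, 0, 0⟩))
(.node (.node (.leaf ⟨0, 6640, 0, 0⟩)
(.leaf ⟨2, 14859, 0, 0⟩))
(.leaf ⟨1, 64, 4, 0⟩)))
(.node (.node (.node (.leaf ⟨0, 3041, 0, 0⟩)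
(.leaf ⟨2, 6265, 0, 0⟩))
(.leaf ⟨0, 14613, 0, 0⟩))
(.node (.leaf ⟨0, 9530, 0, 0⟩)
(.leaf ⟨1, 33, 36, 0⟩)))))
(.node (.node (.node (.node (.node (.leaf ⟨0, 823, 0, 0⟩)
(.leaf ⟨1, 19, 25, 0⟩))
(.leaf ⟨0, 12097, 0, 0⟩))
(.node (.node (.leaf ⟨0, 5659, 0, 0⟩)
(.leaf ⟨2, 13201, 0, 0⟩))
(.leaf ⟨0, 16132, 0, 0⟩)))
(.node (.node (.node (.leaf ⟨0, 2283, 0, 0⟩)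
(.leaf ⟨2, 2929, 0, 0⟩))
(.leaf ⟨0, 14116, 0, 0⟩))
(.node (.leaf ⟨0, 9080, 0, 0⟩)
(.leaf ⟨1, 20, 12, 0⟩))))
(.node (.node (.node (.node (.leaf ⟨0, 1522, 0, 0⟩)
(.leaf ⟨1, 112, 84, 0⟩))
(.leaf ⟨0, 13357, 0, 0⟩))
(.node (.leaf ⟨0, 7841, 0, 0⟩)
(.leaf ⟨1, 6, 3, 0⟩)))
(.node (.node (.node (.leaf ⟨0, 3973, 0, 0⟩)
(.leaf ⟨2, 8569, 0, 0⟩))
(.leaf ⟨0, 15121, 0, 0⟩))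
(.node (.leaf ⟨0, 10115, 0, 0⟩)
(.leaf ⟨1, 68, 24, 0⟩))))))
(.node (.node (.node (.node (.node (.node (.leaf ⟨0, 623, 0, 0⟩)
(.leaf ⟨1, 11, 13, 0⟩))
(.leaf ⟨0, 11811, 0, 0⟩))
(.node (.node (.leaf ⟨0, 5151, 0, 0⟩)
(.leaf ⟨2, 11937, 0, 0⟩))
(.leaf ⟨0, 15882, 0, 0⟩)))
(.node (.node (.node (.leaf ⟨0, 2008, 0, 0⟩)
(.leaf ⟨2, 2269, 0, 0⟩))
(.leaf ⟨0, 13957, 0, 0⟩))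
(.node (.leaf ⟨0, 8783, 0, 0⟩)
(.leaf ⟨1, 17, 40, 0⟩))))
(.node (.node (.node (.node (.leaf ⟨0, 1387, 0, 0⟩)
(.leaf ⟨1, 100, 84, 0⟩))
(.leaf ⟨0, 13091, 0, 0⟩))
(.node (.node (.leaf ⟨0, 7303, 0, 0⟩)
(.leaf ⟨2, 15505, 0, 0⟩))
(.leaf ⟨1, 5, 12, 0⟩)))
(.node (.node (.node (.leaf ⟨0, 3532, 0, 0⟩)
(.leaf ⟨2, 7691, 0, 0⟩))
(.leaf ⟨0, 14874, 0, 0⟩))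
(.node (.leaf ⟨0, 9848, 0, 0⟩)
(.leaf ⟨1, 48, 17, 0⟩)))))
(.node (.node (.node (.node (.node (.leaf ⟨0, 1004, 0, 0⟩)
(.leaf ⟨1, 26, 19, 0⟩))
(.leaf ⟨0, 12395, 0, 0⟩))
(.node (.node (.leaf ⟨0, 6050, 0, 0⟩)
(.leaf ⟨2, 13969, 0, 0⟩))
(.leaf ⟨1, 4, 64, 0⟩)))
(.node (.node (.node (.leaf ⟨0, 2546, 0, 0⟩)
(.leaf ⟨2, 4639, 0, 0⟩))
(.leaf ⟨0, 14351, 0, 0⟩))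
(.node (.leaf ⟨0, 9319, 0, 0⟩)
(.leaf ⟨1, 24, 3, 0⟩))))
(.node (.node (.node (.node (.leaf ⟨0, 1753, 0, 0⟩)
(.leaf ⟨2, 623, 0, 0⟩))
(.leaf ⟨0, 13510, 0, 0⟩))
(.node (.leaf ⟨0, 8072, 0, 0⟩)
(.leaf ⟨1, 6, 66, 0⟩)))
(.node (.node (.node (.leaf ⟨0, 4215, 0, 0⟩)
(.leaf ⟨2, 9307, 0, 0⟩))
(.leaf ⟨0, 15382, 0, 0⟩))
(.node (.leaf ⟨0, 10361, 0, 0⟩)
(.leaf ⟨1, 72, 68, 0⟩))))))))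
(.node (.node (.node (.node (.node (.node (.node (.node (.leaf ⟨0, 254, 0, 0⟩)
(.leaf ⟨1, 96, 17, 0⟩))
(.leaf ⟨0, 11169, 0, 0⟩))
(.node (.node (.leaf ⟨0, 4588, 0, 0⟩)
(.leaf ⟨2, 10145, 0, 0⟩))
(.leaf ⟨0, 15621, 0, 0⟩)))
(.node (.node (.node (.leaf ⟨0, 1846, 0, 0⟩)
(.leaf ⟨2, 1259, 0, 0⟩))
(.leaf ⟨0, 13729, 0, 0⟩))
(.node (.leaf ⟨0, 8438, 0, 0⟩)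
(.leaf ⟨1, 10, 17, 0⟩))))
(.node (.node (.node (.node (.leaf ⟨0, 1199, 0, 0⟩)
(.leaf ⟨1, 76, 104, 0⟩))
(.leaf ⟨0, 12815, 0, 0⟩))
(.node (.node (.leaf ⟨0, 6604, 0, 0⟩)
(.leaf ⟨2, 14725, 0, 0⟩))
(.leaf ⟨1, 32, 4, 0⟩)))
(.node (.node (.node (.leaf ⟨0, 2873, 0, 0⟩)
(.leaf ⟨2, 6049, 0, 0⟩))
(.leaf ⟨0, 14599, 0, 0⟩))
(.node (.leaf ⟨0, 9457, 0, 0⟩)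
(.leaf ⟨1, 33, 20, 0⟩)))))
(.node (.node (.node (.node (.node (.leaf ⟨0, 758, 0, 0⟩)
(.leaf ⟨1, 19, 7, 0⟩))
(.leaf ⟨0, 12041, 0, 0⟩))
(.node (.node (.leaf ⟨0, 5608, 0, 0⟩)
(.leaf ⟨2, 12823, 0, 0⟩))
(.leaf ⟨0, 16016, 0, 0⟩)))
(.node (.node (.node (.leaf ⟨0, 2174, 0, 0⟩)
(.leaf ⟨2, 2681, 0, 0⟩))
(.leaf ⟨0, 14100, 0, 0⟩))
(.node (.leaf ⟨0, 9018, 0, 0⟩)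
(.leaf ⟨1, 20, 5, 0⟩))))
(.node (.node (.node (.node (.leaf ⟨0, 1510, 0, 0⟩)
(.leaf ⟨1, 104, 104, 0⟩))
(.leaf ⟨0, 13341, 0, 0⟩))
(.node (.leaf ⟨0, 7715, 0, 0⟩)
(.leaf ⟨1, 5, 68, 0⟩)))
(.node (.node (.node (.leaf ⟨0, 3889, 0, 0⟩)
(.leaf ⟨2, 8427, 0, 0⟩))
(.leaf ⟨0, 15110, 0, 0⟩))
(.node (.leaf ⟨0, 10057, 0, 0⟩)
(.leaf ⟨1, 68, 12, 0⟩))))))
(.node (.node (.node (.node (.node (.node (.leaf ⟨0, 506, 0, 0⟩)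
(.leaf ⟨1, 7, 35, 0⟩))
(.leaf ⟨0, 11744, 0, 0⟩))
(.node (.node (.leaf ⟨0, 5080, 0, 0⟩)
(.leaf ⟨2, 11787, 0, 0⟩))
(.leaf ⟨0, 15875, 0, 0⟩)))
(.node (.node (.node (.leaf ⟨0, 1976, 0, 0⟩)
(.leaf ⟨2, 2237, 0, 0⟩))
(.leaf ⟨0, 13874, 0, 0⟩))
(.node (.leaf ⟨0, 8759, 0, 0⟩)
(.leaf ⟨1, 17, 24, 0⟩))))
(.node (.node (.node (.node (.leaf ⟨0, 1339, 0, 0⟩)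
(.leaf ⟨1, 98, 112, 0⟩))
(.leaf ⟨0, 13069, 0, 0⟩))
(.node (.node (.leaf ⟨0, 7136, 0, 0⟩)
(.leaf ⟨2, 15373, 0, 0⟩))
(.leaf ⟨1, 5, 5, 0⟩)))
(.node (.node (.node (.leaf ⟨0, 3308, 0, 0⟩)
(.leaf ⟨2, 7557, 0, 0⟩))
(.leaf ⟨0, 14867, 0, 0⟩))
(.node (.leaf ⟨0, 9786, 0, 0⟩)
(.leaf ⟨1, 36, 72, 0⟩)))))
(.node (.node (.node (.node (.node (.leaf ⟨0, 988, 0, 0⟩)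
(.leaf ⟨1, 25, 19, 0⟩))
(.leaf ⟨0, 12367, 0, 0⟩))
(.node (.node (.leaf ⟨0, 6021, 0, 0⟩)
(.leaf ⟨2, 13843, 0, 0⟩))
(.leaf ⟨1, 4, 4, 0⟩)))
(.node (.node (.node (.leaf ⟨0, 2534, 0, 0⟩)
(.leaf ⟨2, 4345, 0, 0⟩))
(.leaf ⟨0, 14216, 0, 0⟩))
(.node (.leaf ⟨0, 9303, 0, 0⟩)
(.leaf ⟨1, 20, 68, 0⟩))))
(.node (.node (.node (.node (.leaf ⟨0, 1658, 0, 0⟩)
(.leaf ⟨2, 491, 0, 0⟩))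
(.leaf ⟨0, 13454, 0, 0⟩))
(.node (.leaf ⟨0, 8002, 0, 0⟩)
(.leaf ⟨1, 6, 36, 0⟩)))
(.node (.node (.node (.leaf ⟨0, 4064, 0, 0⟩)
(.leaf ⟨2, 9275, 0, 0⟩))
(.leaf ⟨0, 15373, 0, 0⟩))
(.node (.leaf ⟨0, 10287, 0, 0⟩)
(.leaf ⟨1, 72, 12, 0⟩)))))))
(.node (.node (.node (.node (.node (.node (.node (.leaf ⟨0, 487, 0, 0⟩)
(.leaf ⟨1, 96, 80, 0⟩))
(.leaf ⟨0, 11315, 0, 0⟩))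
(.node (.node (.leaf ⟨0, 4723, 0, 0⟩)
(.leaf ⟨2, 11153, 0, 0⟩))
(.leaf ⟨0, 15681, 0, 0⟩)))
(.node (.node (.node (.leaf ⟨0, 1906, 0, 0⟩)
(.leaf ⟨2, 1657, 0, 0⟩))
(.leaf ⟨0, 13843, 0, 0⟩))
(.node (.leaf ⟨0, 8563, 0, 0⟩)
(.leaf ⟨1, 17, 5, 0⟩))))
(.node (.node (.node (.node (.leaf ⟨0, 1267, 0, 0⟩)
(.leaf ⟨1, 88, 104, 0⟩))
(.leaf ⟨0, 12851, 0, 0⟩))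
(.node (.node (.leaf ⟨0, 6707, 0, 0⟩)
(.leaf ⟨2, 14981, 0, 0⟩))
(.leaf ⟨1, 64, 64, 0⟩)))
(.node (.node (.node (.leaf ⟨0, 3056, 0, 0⟩)
(.leaf ⟨2, 7045, 0, 0⟩))
(.leaf ⟨0, 14753, 0, 0⟩))
(.node (.leaf ⟨0, 9712, 0, 0⟩)
(.leaf ⟨1, 33, 66, 0⟩)))))
(.node (.node (.node (.node (.node (.leaf ⟨0, 883, 0, 0⟩)
(.leaf ⟨1, 21, 13, 0⟩))
(.leaf ⟨0, 12176, 0, 0⟩))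
(.node (.node (.leaf ⟨0, 5913, 0, 0⟩)
(.leaf ⟨2, 13339, 0, 0⟩))
(.leaf ⟨0, 16256, 0, 0⟩)))
(.node (.node (.node (.leaf ⟨0, 2294, 0, 0⟩)
(.leaf ⟨2, 3553, 0, 0⟩))
(.leaf ⟨0, 14146, 0, 0⟩))
(.node (.leaf ⟨0, 9200, 0, 0⟩)
(.leaf ⟨1, 20, 24, 0⟩))))
(.node (.node (.node (.node (.leaf ⟨0, 1583, 0, 0⟩)
(.leaf ⟨1, 112, 104, 0⟩))
(.leaf ⟨0, 13369, 0, 0⟩))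
(.node (.leaf ⟨0, 7888, 0, 0⟩)
(.leaf ⟨1, 6, 10, 0⟩)))
(.node (.node (.node (.leaf ⟨0, 4004, 0, 0⟩)
(.leaf ⟨2, 8825, 0, 0⟩))
(.leaf ⟨0, 15234, 0, 0⟩))
(.node (.leaf ⟨0, 10145, 0, 0⟩)
(.leaf ⟨1, 68, 40, 0⟩))))))
(.node (.node (.node (.node (.node (.node (.leaf ⟨0, 638, 0, 0⟩)
(.leaf ⟨1, 11, 67, 0⟩))
(.leaf ⟨0, 11910, 0, 0⟩))
(.node (.node (.leaf ⟨0, 5227, 0, 0⟩)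
(.leaf ⟨2, 12319, 0, 0⟩))
(.leaf ⟨0, 15892, 0, 0⟩)))
(.node (.node (.node (.leaf ⟨0, 2024, 0, 0⟩)
(.leaf ⟨2, 2291, 0, 0⟩))
(.leaf ⟨0, 14083, 0, 0⟩))
(.node (.leaf ⟨0, 8819, 0, 0⟩)
(.leaf ⟨1, 17, 68, 0⟩))))
(.node (.node (.node (.node (.leaf ⟨0, 1404, 0, 0⟩)
(.leaf ⟨1, 100, 112, 0⟩))
(.leaf ⟨0, 13217, 0, 0⟩))
(.node (.node (.leaf ⟨0, 7618, 0, 0⟩)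
(.leaf ⟨2, 15649, 0, 0⟩))
(.leaf ⟨1, 5, 24, 0⟩)))
(.node (.node (.node (.leaf ⟨0, 3556, 0, 0⟩)
(.leaf ⟨2, 7841, 0, 0⟩))
(.leaf ⟨0, 14979, 0, 0⟩))
(.node (.leaf ⟨0, 10003, 0, 0⟩)
(.leaf ⟨1, 65, 72, 0⟩)))))
(.node (.node (.node (.node (.node (.leaf ⟨0, 1016, 0, 0⟩)
(.leaf ⟨1, 35, 35, 0⟩))
(.leaf ⟨0, 12439, 0, 0⟩))
(.node (.node (.leaf ⟨0, 6082, 0, 0⟩)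
(.leaf ⟨2, 14089, 0, 0⟩))
(.leaf ⟨1, 8, 8, 0⟩)))
(.node (.node (.node (.leaf ⟨0, 2607, 0, 0⟩)
(.leaf ⟨2, 5151, 0, 0⟩))
(.leaf ⟨0, 14366, 0, 0⟩))
(.node (.leaf ⟨0, 9331, 0, 0⟩)
(.leaf ⟨1, 33, 3, 0⟩))))
(.node (.node (.node (.node (.leaf ⟨0, 1777, 0, 0⟩)
(.leaf ⟨2, 827, 0, 0⟩))
(.leaf ⟨0, 13587, 0, 0⟩))
(.node (.leaf ⟨0, 8255, 0, 0⟩)
(.leaf ⟨1, 6, 96, 0⟩)))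
(.node (.node (.node (.leaf ⟨0, 4334, 0, 0⟩)
(.leaf ⟨2, 9325, 0, 0⟩))
(.leaf ⟨0, 15410, 0, 0⟩))
(.node (.leaf ⟨0, 10779, 0, 0⟩)
(.leaf ⟨1, 80, 17, 0⟩)))))))))
(.node (.node (.node (.node (.node (.node (.node (.node (.node (.leaf ⟨0, 251, 0, 0⟩)
(.leaf ⟨1, 80, 96, 0⟩))
(.leaf ⟨0, 11141, 0, 0⟩))
(.node (.node (.leaf ⟨0, 4572, 0, 0⟩)
(.leaf ⟨2, 10117, 0, 0⟩))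
(.leaf ⟨0, 15521, 0, 0⟩)))
(.node (.node (.node (.leaf ⟨0, 1843, 0, 0⟩)
(.leaf ⟨2, 1147, 0, 0⟩))
(.leaf ⟨0, 13702, 0, 0⟩))
(.node (.leaf ⟨0, 8379, 0, 0⟩)
(.leaf ⟨1, 10, 3, 0⟩))))
(.node (.node (.node (.node (.leaf ⟨0, 1149, 0, 0⟩)
(.leaf ⟨1, 76, 88, 0⟩))
(.leaf ⟨0, 12595, 0, 0⟩))
(.node (.node (.leaf ⟨0, 6203, 0, 0⟩)
(.leaf ⟨2, 14363, 0, 0⟩))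
(.leaf ⟨1, 16, 16, 0⟩)))
(.node (.node (.node (.leaf ⟨0, 2804, 0, 0⟩)
(.leaf ⟨2, 6021, 0, 0⟩))
(.leaf ⟨0, 14471, 0, 0⟩))
(.node (.leaf ⟨0, 9371, 0, 0⟩)
(.leaf ⟨1, 33, 17, 0⟩)))))
(.node (.node (.node (.node (.node (.leaf ⟨0, 755, 0, 0⟩)
(.leaf ⟨1, 14, 7, 0⟩))
(.leaf ⟨0, 12037, 0, 0⟩))
(.node (.node (.leaf ⟨0, 5592, 0, 0⟩)
(.leaf ⟨2, 12571, 0, 0⟩))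
(.leaf ⟨0, 16004, 0, 0⟩)))
(.node (.node (.node (.leaf ⟨0, 2171, 0, 0⟩)
(.leaf ⟨2, 2537, 0, 0⟩))
(.leaf ⟨0, 14097, 0, 0⟩))
(.node (.leaf ⟨0, 9011, 0, 0⟩)
(.leaf ⟨1, 18, 72, 0⟩))))
(.node (.node (.node (.node (.leaf ⟨0, 1500, 0, 0⟩)
(.leaf ⟨1, 104, 98, 0⟩))
(.leaf ⟨0, 13335, 0, 0⟩))
(.node (.leaf ⟨0, 7691, 0, 0⟩)
(.leaf ⟨1, 5, 65, 0⟩)))
(.node (.node (.node (.leaf ⟨0, 3816, 0, 0⟩)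
(.leaf ⟨2, 8315, 0, 0⟩))
(.leaf ⟨0, 15107, 0, 0⟩))
(.node (.leaf ⟨0, 10040, 0, 0⟩)
(.leaf ⟨1, 68, 9, 0⟩))))))
(.node (.node (.node (.node (.node (.node (.leaf ⟨0, 502, 0, 0⟩)
(.leaf ⟨1, 7, 19, 0⟩))
(.leaf ⟨0, 11716, 0, 0⟩))
(.node (.node (.leaf ⟨0, 5068, 0, 0⟩)
(.leaf ⟨2, 11681, 0, 0⟩))
(.leaf ⟨0, 15776, 0, 0⟩)))
(.node (.node (.node (.leaf ⟨0, 1969, 0, 0⟩)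
(.leaf ⟨2, 2231, 0, 0⟩))
(.leaf ⟨0, 13861, 0, 0⟩))
(.node (.leaf ⟨0, 8735, 0, 0⟩)
(.leaf ⟨1, 17, 18, 0⟩))))
(.node (.node (.node (.node (.leaf ⟨0, 1311, 0, 0⟩)
(.leaf ⟨1, 98, 100, 0⟩))
(.leaf ⟨0, 12947, 0, 0⟩))
(.node (.node (.leaf ⟨0, 7112, 0, 0⟩)
(.leaf ⟨2, 15367, 0, 0⟩))
(.leaf ⟨1, 3, 72, 0⟩)))
(.node (.node (.node (.leaf ⟨0, 3302, 0, 0⟩)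
(.leaf ⟨2, 7191, 0, 0⟩))
(.leaf ⟨0, 14861, 0, 0⟩))
(.node (.leaf ⟨0, 9779, 0, 0⟩)
(.leaf ⟨1, 34, 72, 0⟩)))))
(.node (.node (.node (.node (.node (.leaf ⟨0, 985, 0, 0⟩)
(.leaf ⟨1, 25, 11, 0⟩))
(.leaf ⟨0, 12347, 0, 0⟩))
(.node (.node (.leaf ⟨0, 5985, 0, 0⟩)
(.leaf ⟨2, 13831, 0, 0⟩))
(.leaf ⟨1, 4, 1, 0⟩)))
(.node (.node (.node (.leaf ⟨0, 2524, 0, 0⟩)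
(.leaf ⟨2, 4283, 0, 0⟩))
(.leaf ⟨0, 14210, 0, 0⟩))
(.node (.leaf ⟨0, 9278, 0, 0⟩)
(.leaf ⟨1, 20, 65, 0⟩))))
(.node (.node (.node (.node (.leaf ⟨0, 1629, 0, 0⟩)
(.leaf ⟨2, 379, 0, 0⟩))
(.leaf ⟨0, 13447, 0, 0⟩))
(.node (.leaf ⟨0, 7969, 0, 0⟩)
(.leaf ⟨1, 6, 33, 0⟩)))
(.node (.node (.node (.leaf ⟨0, 4040, 0, 0⟩)
(.leaf ⟨2, 9263, 0, 0⟩))
(.leaf ⟨0, 15367, 0, 0⟩))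
(.node (.leaf ⟨0, 10208, 0, 0⟩)
(.leaf ⟨1, 68, 80, 0⟩)))))))
(.node (.node (.node (.node (.node (.node (.node (.leaf ⟨0, 382, 0, 0⟩)
(.leaf ⟨1, 96, 68, 0⟩))
(.leaf ⟨0, 11303, 0, 0⟩))
(.node (.node (.leaf ⟨0, 4699, 0, 0⟩)
(.leaf ⟨2, 10779, 0, 0⟩))
(.leaf ⟨0, 15636, 0, 0⟩)))
(.node (.node (.node (.leaf ⟨0, 1897, 0, 0⟩)
(.leaf ⟨2, 1521, 0, 0⟩))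
(.leaf ⟨0, 13837, 0, 0⟩))
(.node (.leaf ⟨0, 8507, 0, 0⟩)
(.leaf ⟨1, 12, 72, 0⟩))))
(.node (.node (.node (.node (.leaf ⟨0, 1259, 0, 0⟩)
(.leaf ⟨1, 88, 84, 0⟩))
(.leaf ⟨0, 12843, 0, 0⟩))
(.node (.node (.leaf ⟨0, 6683, 0, 0⟩)
(.leaf ⟨2, 14867, 0, 0⟩))
(.leaf ⟨1, 64, 16, 0⟩)))
(.node (.node (.node (.leaf ⟨0, 3044, 0, 0⟩)
(.leaf ⟨2, 6683, 0, 0⟩))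
(.leaf ⟨0, 14725, 0, 0⟩))
(.node (.leaf ⟨0, 9592, 0, 0⟩)
(.leaf ⟨1, 33, 48, 0⟩)))))
(.node (.node (.node (.node (.node (.leaf ⟨0, 830, 0, 0⟩)
(.leaf ⟨1, 19, 67, 0⟩))
(.leaf ⟨0, 12164, 0, 0⟩))
(.node (.node (.leaf ⟨0, 5872, 0, 0⟩)
(.leaf ⟨2, 13327, 0, 0⟩))
(.leaf ⟨0, 16144, 0, 0⟩)))
(.node (.node (.node (.leaf ⟨0, 2286, 0, 0⟩)
(.leaf ⟨2, 3131, 0, 0⟩))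
(.leaf ⟨0, 14128, 0, 0⟩))
(.node (.leaf ⟨0, 9186, 0, 0⟩)
(.leaf ⟨1, 20, 18, 0⟩))))
(.node (.node (.node (.node (.leaf ⟨0, 1528, 0, 0⟩)
(.leaf ⟨1, 112, 98, 0⟩))
(.leaf ⟨0, 13365, 0, 0⟩))
(.node (.leaf ⟨0, 7874, 0, 0⟩)
(.leaf ⟨1, 6, 6, 0⟩)))
(.node (.node (.node (.leaf ⟨0, 4001, 0, 0⟩)
(.leaf ⟨2, 8763, 0, 0⟩))
(.leaf ⟨0, 15137, 0, 0⟩))
(.node (.leaf ⟨0, 10129, 0, 0⟩)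
(.leaf ⟨1, 68, 34, 0⟩))))))
(.node (.node (.node (.node (.node (.node (.leaf ⟨0, 635, 0, 0⟩)
(.leaf ⟨1, 11, 25, 0⟩))
(.leaf ⟨0, 11907, 0, 0⟩))
(.node (.node (.leaf ⟨0, 5175, 0, 0⟩)
(.leaf ⟨2, 12049, 0, 0⟩))
(.leaf ⟨0, 15889, 0, 0⟩)))
(.node (.node (.node (.leaf ⟨0, 2018, 0, 0⟩)
(.leaf ⟨2, 2283, 0, 0⟩))
(.leaf ⟨0, 13969, 0, 0⟩))
(.node (.leaf ⟨0, 8795, 0, 0⟩)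
(.leaf ⟨1, 17, 65, 0⟩))))
(.node (.node (.node (.node (.leaf ⟨0, 1401, 0, 0⟩)
(.leaf ⟨1, 100, 100, 0⟩))
(.leaf ⟨0, 13189, 0, 0⟩))
(.node (.node (.leaf ⟨0, 7569, 0, 0⟩)
(.leaf ⟨2, 15621, 0, 0⟩))
(.leaf ⟨1, 5, 18, 0⟩)))
(.node (.node (.node (.leaf ⟨0, 3553, 0, 0⟩)
(.leaf ⟨2, 7813, 0, 0⟩))
(.leaf ⟨0, 14897, 0, 0⟩))
(.node (.leaf ⟨0, 9968, 0, 0⟩)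
(.leaf ⟨1, 48, 96, 0⟩)))))
(.node (.node (.node (.node (.node (.leaf ⟨0, 1010, 0, 0⟩)
(.leaf ⟨1, 35, 11, 0⟩))
(.leaf ⟨0, 12409, 0, 0⟩))
(.node (.node (.leaf ⟨0, 6064, 0, 0⟩)
(.leaf ⟨2, 14083, 0, 0⟩))
(.leaf ⟨1, 8, 2, 0⟩)))
(.node (.node (.node (.leaf ⟨0, 2552, 0, 0⟩)
(.leaf ⟨2, 4715, 0, 0⟩))
(.leaf ⟨0, 14363, 0, 0⟩))
(.node (.leaf ⟨0, 9325, 0, 0⟩)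
(.leaf ⟨1, 24, 17, 0⟩))))
(.node (.node (.node (.node (.leaf ⟨0, 1769, 0, 0⟩)
(.leaf ⟨2, 699, 0, 0⟩))
(.leaf ⟨0, 13579, 0, 0⟩))
(.node (.leaf ⟨0, 8096, 0, 0⟩)
(.leaf ⟨1, 6, 72, 0⟩)))
(.node (.node (.node (.leaf ⟨0, 4283, 0, 0⟩)
(.leaf ⟨2, 9319, 0, 0⟩))
(.leaf ⟨0, 15386, 0, 0⟩))
(.node (.leaf ⟨0, 10728, 0, 0⟩)
(.leaf ⟨1, 72, 80, 0⟩))))))))
(.node (.node (.node (.node (.node (.node (.node (.node (.leaf ⟨0, 367, 0, 0⟩)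
(.leaf ⟨1, 96, 24, 0⟩))
(.leaf ⟨0, 11232, 0, 0⟩))
(.node (.node (.leaf ⟨0, 4600, 0, 0⟩)
(.leaf ⟨2, 10299, 0, 0⟩))
(.leaf ⟨0, 15625, 0, 0⟩)))
(.node (.node (.node (.leaf ⟨0, 1850, 0, 0⟩)
(.leaf ⟨2, 1339, 0, 0⟩))
(.leaf ⟨0, 13776, 0, 0⟩))
(.node (.leaf ⟨0, 8442, 0, 0⟩)
(.leaf ⟨1, 12, 3, 0⟩))))
(.node (.node (.node (.node (.leaf ⟨0, 1214, 0, 0⟩)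
(.leaf ⟨1, 84, 88, 0⟩))
(.leaf ⟨0, 12827, 0, 0⟩))
(.node (.node (.leaf ⟨0, 6628, 0, 0⟩)
(.leaf ⟨2, 14753, 0, 0⟩))
(.leaf ⟨1, 32, 16, 0⟩)))
(.node (.node (.node (.leaf ⟨0, 3020, 0, 0⟩)
(.leaf ⟨2, 6203, 0, 0⟩))
(.leaf ⟨0, 14605, 0, 0⟩))
(.node (.leaf ⟨0, 9499, 0, 0⟩)
(.leaf ⟨1, 33, 33, 0⟩)))))
(.node (.node (.node (.node (.node (.leaf ⟨0, 762, 0, 0⟩)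
(.leaf ⟨1, 19, 19, 0⟩))
(.leaf ⟨0, 12052, 0, 0⟩))
(.node (.node (.leaf ⟨0, 5647, 0, 0⟩)
(.leaf ⟨2, 12829, 0, 0⟩))
(.leaf ⟨0, 16129, 0, 0⟩)))
(.node (.node (.node (.leaf ⟨0, 2238, 0, 0⟩)
(.leaf ⟨2, 2905, 0, 0⟩))
(.leaf ⟨0, 14113, 0, 0⟩))
(.node (.leaf ⟨0, 9065, 0, 0⟩)
(.leaf ⟨1, 20, 9, 0⟩))))
(.node (.node (.node (.node (.leaf ⟨0, 1516, 0, 0⟩)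
(.leaf ⟨1, 112, 52, 0⟩))
(.leaf ⟨0, 13351, 0, 0⟩))
(.node (.leaf ⟨0, 7825, 0, 0⟩)
(.leaf ⟨1, 5, 80, 0⟩)))
(.node (.node (.node (.leaf ⟨0, 3938, 0, 0⟩)
(.leaf ⟨2, 8507, 0, 0⟩))
(.leaf ⟨0, 15114, 0, 0⟩))
(.node (.leaf ⟨0, 10081, 0, 0⟩)
(.leaf ⟨1, 68, 18, 0⟩))))))
(.node (.node (.node (.node (.node (.node (.leaf ⟨0, 575, 0, 0⟩)
(.leaf ⟨1, 11, 7, 0⟩))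
(.leaf ⟨0, 11787, 0, 0⟩))
(.node (.node (.leaf ⟨0, 5096, 0, 0⟩)
(.leaf ⟨2, 11909, 0, 0⟩))
(.leaf ⟨0, 15878, 0, 0⟩)))
(.node (.node (.node (.leaf ⟨0, 2002, 0, 0⟩)
(.leaf ⟨2, 2263, 0, 0⟩))
(.leaf ⟨0, 13905, 0, 0⟩))
(.node (.leaf ⟨0, 8765, 0, 0⟩)
(.leaf ⟨1, 17, 34, 0⟩))))
(.node (.node (.node (.node (.leaf ⟨0, 1342, 0, 0⟩)
(.leaf ⟨1, 100, 52, 0⟩))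
(.leaf ⟨0, 13077, 0, 0⟩))
(.node (.node (.leaf ⟨0, 7191, 0, 0⟩)
(.leaf ⟨2, 15381, 0, 0⟩))
(.leaf ⟨1, 5, 9, 0⟩)))
(.node (.node (.node (.leaf ⟨0, 3316, 0, 0⟩)
(.leaf ⟨2, 7585, 0, 0⟩))
(.leaf ⟨0, 14870, 0, 0⟩))
(.node (.leaf ⟨0, 9803, 0, 0⟩)
(.leaf ⟨1, 40, 17, 0⟩)))))
(.node (.node (.node (.node (.node (.leaf ⟨0, 1001, 0, 0⟩)
(.leaf ⟨1, 25, 25, 0⟩))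
(.leaf ⟨0, 12379, 0, 0⟩))
(.node (.node (.leaf ⟨0, 6036, 0, 0⟩)
(.leaf ⟨2, 13849, 0, 0⟩))
(.leaf ⟨1, 4, 16, 0⟩)))
(.node (.node (.node (.leaf ⟨0, 2538, 0, 0⟩)
(.leaf ⟨2, 4459, 0, 0⟩))
(.leaf ⟨0, 14240, 0, 0⟩))
(.node (.leaf ⟨0, 9309, 0, 0⟩)
(.leaf ⟨1, 20, 80, 0⟩))))
(.node (.node (.node (.node (.leaf ⟨0, 1721, 0, 0⟩)
(.leaf ⟨2, 501, 0, 0⟩))
(.leaf ⟨0, 13462, 0, 0⟩))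
(.node (.leaf ⟨0, 8066, 0, 0⟩)
(.leaf ⟨1, 6, 48, 0⟩)))
(.node (.node (.node (.leaf ⟨0, 4191, 0, 0⟩)
(.leaf ⟨2, 9295, 0, 0⟩))
(.leaf ⟨0, 15379, 0, 0⟩))
(.node (.leaf ⟨0, 10299, 0, 0⟩)
(.leaf ⟨1, 72, 24, 0⟩)))))))
(.node (.node (.node (.node (.node (.node (.node (.leaf ⟨0, 493, 0, 0⟩)
(.leaf ⟨1, 7, 7, 0⟩))
(.leaf ⟨0, 11411, 0, 0⟩))
(.node (.node (.leaf ⟨0, 4730, 0, 0⟩)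
(.leaf ⟨2, 11279, 0, 0⟩))
(.leaf ⟨0, 15746, 0, 0⟩)))
(.node (.node (.node (.leaf ⟨0, 1939, 0, 0⟩)
(.leaf ⟨2, 2159, 0, 0⟩))
(.leaf ⟨0, 13846, 0, 0⟩))
(.node (.leaf ⟨0, 8634, 0, 0⟩)
(.leaf ⟨1, 17, 9, 0⟩))))
(.node (.node (.node (.node (.leaf ⟨0, 1270, 0, 0⟩)
(.leaf ⟨1, 97, 100, 0⟩))
(.leaf ⟨0, 12857, 0, 0⟩))
(.node (.node (.leaf ⟨0, 7057, 0, 0⟩)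
(.leaf ⟨2, 15009, 0, 0⟩))
(.leaf ⟨1, 3, 5, 0⟩)))
(.node (.node (.node (.leaf ⟨0, 3119, 0, 0⟩)
(.leaf ⟨2, 7057, 0, 0⟩))
(.leaf ⟨0, 14792, 0, 0⟩))
(.node (.leaf ⟨0, 9751, 0, 0⟩)
(.leaf ⟨1, 33, 72, 0⟩)))))
(.node (.node (.node (.node (.node (.leaf ⟨0, 890, 0, 0⟩)
(.leaf ⟨1, 21, 21, 0⟩))
(.leaf ⟨0, 12224, 0, 0⟩))
(.node (.node (.leaf ⟨0, 5929, 0, 0⟩)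
(.leaf ⟨2, 13447, 0, 0⟩))
(.leaf ⟨1, 1, 1, 0⟩)))
(.node (.node (.node (.leaf ⟨0, 2298, 0, 0⟩)
(.leaf ⟨2, 3985, 0, 0⟩))
(.leaf ⟨0, 14152, 0, 0⟩))
(.node (.leaf ⟨0, 9263, 0, 0⟩)
(.leaf ⟨1, 20, 34, 0⟩))))
(.node (.node (.node (.node (.leaf ⟨0, 1595, 0, 0⟩)
(.leaf ⟨2, 127, 0, 0⟩))
(.leaf ⟨0, 13387, 0, 0⟩))
(.node (.leaf ⟨0, 7941, 0, 0⟩)
(.leaf ⟨1, 6, 17, 0⟩)))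
(.node (.node (.node (.leaf ⟨0, 4016, 0, 0⟩)
(.leaf ⟨2, 9049, 0, 0⟩))
(.leaf ⟨0, 15240, 0, 0⟩))
(.node (.leaf ⟨0, 10152, 0, 0⟩)
(.leaf ⟨1, 68, 65, 0⟩))))))
(.node (.node (.node (.node (.node (.node (.leaf ⟨0, 731, 0, 0⟩)
(.leaf ⟨1, 13, 11, 0⟩))
(.leaf ⟨0, 11924, 0, 0⟩))
(.node (.node (.leaf ⟨0, 5399, 0, 0⟩)
(.leaf ⟨2, 12379, 0, 0⟩))
(.leaf ⟨0, 15905, 0, 0⟩)))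
(.node (.node (.node (.leaf ⟨0, 2111, 0, 0⟩)
(.leaf ⟨2, 2297, 0, 0⟩))
(.leaf ⟨0, 14086, 0, 0⟩))
(.node (.leaf ⟨0, 8937, 0, 0⟩)
(.leaf ⟨1, 17, 80, 0⟩))))
(.node (.node (.node (.node (.leaf ⟨0, 1466, 0, 0⟩)
(.leaf ⟨1, 104, 56, 0⟩))
(.leaf ⟨0, 13256, 0, 0⟩))
(.node (.node (.leaf ⟨0, 7624, 0, 0⟩)
(.leaf ⟨2, 15877, 0, 0⟩))
(.leaf ⟨1, 5, 34, 0⟩)))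
(.node (.node (.node (.leaf ⟨0, 3568, 0, 0⟩)
(.leaf ⟨2, 7953, 0, 0⟩))
(.leaf ⟨0, 14982, 0, 0⟩))
(.node (.leaf ⟨0, 10019, 0, 0⟩)
(.leaf ⟨1, 66, 72, 0⟩)))))
(.node (.node (.node (.node (.node (.leaf ⟨0, 1119, 0, 0⟩)
(.leaf ⟨1, 67, 11, 0⟩))
(.leaf ⟨0, 12559, 0, 0⟩))
(.node (.node (.leaf ⟨0, 6088, 0, 0⟩)
(.leaf ⟨2, 14113, 0, 0⟩))
(.leaf ⟨1, 16, 1, 0⟩)))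
(.node (.node (.node (.leaf ⟨0, 2790, 0, 0⟩)
(.leaf ⟨2, 5227, 0, 0⟩))
(.leaf ⟨0, 14379, 0, 0⟩))
(.node (.leaf ⟨0, 9334, 0, 0⟩)
(.leaf ⟨1, 33, 6, 0⟩))))
(.node (.node (.node (.node (.leaf ⟨0, 1780, 0, 0⟩)
(.leaf ⟨2, 889, 0, 0⟩))
(.leaf ⟨0, 13593, 0, 0⟩))
(.node (.leaf ⟨0, 8303, 0, 0⟩)
(.leaf ⟨1, 9, 5, 0⟩)))
(.node (.node (.node (.leaf ⟨0, 4346, 0, 0⟩)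
(.leaf ⟨2, 9333, 0, 0⟩))
(.leaf ⟨0, 15491, 0, 0⟩))
(.node (.leaf ⟨0, 10795, 0, 0⟩)
(.leaf ⟨1, 80, 24, 0⟩)))))))))))

end Pool.Agent.Gab7c_h87.CBq
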